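import Mathlib

/-!
# MP_0a86e9_an: three commuting unital CP maps without any dilation

Consider the state space `{l, A, B, C, D, P, N}` (numbered `0, ..., 6`) and the three Markov chains

* colour 0: `l → A, B` with probability `1/2` each; `A → P`, `B → N`, `C → P`, `D → N`;
* colour 1: `l → A, B` with probability `1/2` each; `A → P`, `B → N`, `C → N`, `D → P`;
* colour 2: `l → C, D` with probability `1/2` each; `A → P`, `B → N`, `C → P`, `D → P`;

with `P → P` and `N → P` for all colours. The three transition operators commute. They give three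
commuting unital completely positive maps `T₀, T₁, T₂` on `B(ℂ⁷)` (first restrict to the diagonal).

Let `θ` be a dilation, `e_v` the minimal projections and `p = ∑ e_v`. As the maps are unital,
`θ_c(p) p = p`. If colour `d` maps `x` to `P` with probability one then `θ_d(e_P) e_x = e_x`, and if
the transition probability is zero then `θ_d(e_P) e_x = 0`. Hence
`θ₀ θ₁ (e_P) e_l = θ₀(e_A) e_l` and `θ₁ θ₀ (e_P) e_l = θ₁(e_A) e_l`, and similarly for the other
pairs of colours; we get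
`θ₂(e_C) e_l = θ₀(e_A) e_l = θ₁(e_A) e_l = θ₂(e_D) e_l`, which is impossible as these two
vectors are orthogonal and `e_l θ₂(e_C) e_l = e_l / 2`.
-/

set_option autoImplicit false

open scoped InnerProductSpace ComplexOrder

namespace Pool.Agent.Results.MP_0a86e9_an.NoDilation

section defs

/-- the bounded operators on `H` -/
abbrev Op (H : Type*) [NormedAddCommGroup H] [InnerProductSpace ℂ H] : Type _ := H →L[ℂ] H

/-- the linear maps of `B(H)` into itself -/
abbrev OpMap (H : Type*) [NormedAddCommGroup H] [InnerProductSpace ℂ H] : Type _ :=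
  Op H →ₗ[ℂ] Op H

variable {H : Type*} [NormedAddCommGroup H] [InnerProductSpace ℂ H] [CompleteSpace H]
  {K : Type*} [NormedAddCommGroup K] [InnerProductSpace ℂ K] [CompleteSpace K]

/-- `Φ` is a completely positive map on `B(H)`:
`∑ ⟨h_i, Φ(a_i^* a_j) h_j⟩ ≥ 0` for all finite families `a_i ∈ B(H)`, `h_i ∈ H`. -/
def IsCP (Φ : OpMap H) : Prop :=
  ∀ (n : ℕ) (a : Fin n → Op H) (h : Fin n → H),
    0 ≤ ∑ i, ∑ j, ⟪h i, Φ (star (a i) * a j) (h j)⟫_ℂ

/-- The positive map `Φ` on `B(H)` is normal (ultraweakly continuous): every functional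
`a ↦ ⟨x, Φ(a) x⟩` is of the form `a ↦ ∑ ⟨ξ_i, a ξ_i⟩` with `∑ ‖ξ_i‖² < ∞`. -/
def IsNormal (Φ : OpMap H) : Prop :=
  ∀ x : H, ∃ (ι : Type) (ξ : ι → H), Summable (fun i => ‖ξ i‖ ^ 2) ∧
    ∀ a : Op H, HasSum (fun i => ⟪ξ i, a (ξ i)⟫_ℂ) ⟪x, Φ a x⟫_ℂ

/-- `T 0, T 1, T 2` are commuting unital normal completely positive maps on `B(H)`. -/
structure IsMarkovTriple (T : Fin 3 → OpMap H) : Prop where
  cp : ∀ c, IsCP (T c)
  normal : ∀ c, IsNormal (T c)
  unital : ∀ c, T c 1 = 1
  comm : ∀ c d, T c * T d = T d * T c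

/-- The semigroup over `ℕ³` generated by the commuting maps `T 0, T 1, T 2`:
`T_s = (T 0)^{s 0} (T 1)^{s 1} (T 2)^{s 2}`. -/
noncomputable def semi (T : Fin 3 → OpMap H) (s : Fin 3 → ℕ) : OpMap H :=
  T 0 ^ s 0 * T 1 ^ s 1 * T 2 ^ s 2

/-- Here `H` is regarded as a subspace of `K` by means of the isometry `V`. The operator `b` on `K`
is the operator `a` on `H` extended by `0` to the orthogonal complement of `H`. -/
def IsLift (V : H →ₗᵢ[ℂ] K) (a : Op H) (b : Op K) : Prop :=
  (∀ x, b (V x) = V (a x)) ∧ ∀ z, (∀ x, ⟪V x, z⟫_ℂ = 0) → b z = 0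

/-- `p` is the projection of `K` onto (the copy `V H` of) `H`, it belongs to the von Neumann algebra
`𝓑` on `K`, and `p 𝓑 p = B(H)`. -/
structure IsCorner (V : H →ₗᵢ[ℂ] K) (p : Op K) (𝓑 : VonNeumannAlgebra K) : Prop where
  p_eq : IsLift V 1 p
  p_mem : p ∈ 𝓑
  corner : ∀ b : Op K, (∃ b' ∈ 𝓑, b = p * b' * p) ↔ ∃ a : Op H, IsLift V a b

/-- `f` maps `𝓑` into itself -/
def MapsInto (𝓑 : VonNeumannAlgebra K) (f : Op K → Op K) : Prop := ∀ a ∈ 𝓑, f a ∈ 𝓑

/-- `f` is additive on `𝓑` -/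
def IsAdd (𝓑 : VonNeumannAlgebra K) (f : Op K → Op K) : Prop :=
  ∀ a ∈ 𝓑, ∀ b ∈ 𝓑, f (a + b) = f a + f b

/-- `f` is homogeneous on `𝓑` -/
def IsHom (𝓑 : VonNeumannAlgebra K) (f : Op K → Op K) : Prop :=
  ∀ (c : ℂ), ∀ a ∈ 𝓑, f (c • a) = c • f a

/-- `f` is multiplicative on `𝓑` -/
def IsMul (𝓑 : VonNeumannAlgebra K) (f : Op K → Op K) : Prop :=
  ∀ a ∈ 𝓑, ∀ b ∈ 𝓑, f (a * b) = f a * f b

/-- `f` preserves adjoints on `𝓑` -/
def IsStar (𝓑 : VonNeumannAlgebra K) (f : Op K → Op K) : Prop := ∀ a ∈ 𝓑, f (star a) = star (f a)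

/-- (the restriction to `𝓑` of) `f` is a (not necessarily unital) `*`-endomorphism of `𝓑` -/
structure IsStarEnd (𝓑 : VonNeumannAlgebra K) (f : Op K → Op K) : Prop where
  mapsInto : MapsInto 𝓑 f
  add : IsAdd 𝓑 f
  hom : IsHom 𝓑 f
  mul : IsMul 𝓑 f
  star : IsStar 𝓑 f

/-- the `θ_s`, `s ∈ ℕ³`, form a semigroup of `*`-endomorphisms of `𝓑` -/
structure IsESemigroup (𝓑 : VonNeumannAlgebra K) (θ : (Fin 3 → ℕ) → Op K → Op K) : Prop where
  starEnd : ∀ s, IsStarEnd 𝓑 (θ s)
  zero : ∀ b ∈ 𝓑, θ 0 b = b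
  add : ∀ s t, ∀ b ∈ 𝓑, θ (s + t) b = θ s (θ t b)

/-- `T_s(a) = p θ_s(a) p` for all `a ∈ B(H)` and `s ∈ ℕ³`, where operators on `H` are regarded as
operators on `K` -/
def Dilates (T : Fin 3 → OpMap H) (V : H →ₗᵢ[ℂ] K) (p : Op K)
    (θ : (Fin 3 → ℕ) → Op K → Op K) : Prop :=
  ∀ (s : Fin 3 → ℕ) (a : Op H) (b : Op K), IsLift V a b → IsLift V (semi T s a) (p * θ s b * p)

/-- The semigroup `T_s` on the von Neumann algebra `𝒜 = B(H)` has a dilation `(p, K, 𝓑, θ)`: `K` is
a Hilbert space containing `H` (by means of the isometry `V`), `𝓑` is a von Neumann algebra on `K`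
containing the projection `p` onto `H`, with `p 𝓑 p = 𝒜`, and `θ` is a semigroup over `ℕ³` of (not
necessarily unital) `*`-endomorphisms of `𝓑` with `T_s(a) = p θ_s(a) p`. (We do not even require
the `θ_s` to be normal.) -/
def HasDilation.{u, v} {H : Type u} [NormedAddCommGroup H] [InnerProductSpace ℂ H]
    [CompleteSpace H] (T : Fin 3 → OpMap H) : Prop :=
  ∃ (K : Type v) (_ : NormedAddCommGroup K) (_ : InnerProductSpace ℂ K) (_ : CompleteSpace K)
    (V : H →ₗᵢ[ℂ] K) (p : Op K) (𝓑 : VonNeumannAlgebra K) (θ : (Fin 3 → ℕ) → Op K → Op K),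
    IsCorner V p 𝓑 ∧ IsESemigroup 𝓑 θ ∧ Dilates T V p θ

/-- the operator `V a V^*` -/
noncomputable def lift (V : H →ₗᵢ[ℂ] K) (a : Op H) : Op K :=
  V.toContinuousLinearMap ∘L a ∘L ContinuousLinearMap.adjoint V.toContinuousLinearMap

end defs

/-! ### the example -/

/-- the Hilbert space `ℂ⁷` -/
abbrev H7 : Type := EuclideanSpace ℂ (Fin 7)

/-- the standard basis -/
noncomputable def δ (v : Fin 7) : H7 := EuclideanSpace.single v 1

/-- the projection onto the line spanned by `δ v` -/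
noncomputable def e (v : Fin 7) : H7 →L[ℂ] H7 := (innerSL ℂ (δ v)).smulRight (δ v)

/-- the vector state of `δ v` -/
noncomputable def q (v : Fin 7) : (H7 →L[ℂ] H7) →ₗ[ℂ] ℂ where
  toFun a := ⟪δ v, a (δ v)⟫_ℂ
  map_add' a b := by simp
  map_smul' c a := by simp

/-- the two transition maps of each colour, which are chosen with probability `1/2` each -/
def g : Fin 3 → Bool → Fin 7 → Fin 7 :=
  ![fun b => ![if b then 1 else 2, 5, 6, 5, 6, 5, 5],
    fun b => ![if b then 1 else 2, 5, 6, 6, 5, 5, 5],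
    fun b => ![if b then 3 else 4, 5, 6, 5, 5, 5, 5]]

/-- the unital completely positive map of colour `c` -/
noncomputable def T (c : Fin 3) : (H7 →L[ℂ] H7) →ₗ[ℂ] (H7 →L[ℂ] H7) :=
  ∑ v, (((1 / 2 : ℂ) • (q (g c true v) + q (g c false v))).smulRight (e v))

lemma q_apply (v : Fin 7) (a : H7 →L[ℂ] H7) : q v a = ⟪δ v, a (δ v)⟫_ℂ := rfl

lemma e_apply (v : Fin 7) (x : H7) : e v x = x v • δ v := by
  change ⟪δ v, x⟫_ℂ • δ v = _
  rw [δ, EuclideanSpace.inner_single_left]
  simp

lemma T_apply (c : Fin 3) (a : H7 →L[ℂ] H7) :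
    T c a = ∑ v, ((1 / 2 : ℂ) * (q (g c true v) a + q (g c false v) a)) • e v := by
  simp [T, LinearMap.sum_apply, mul_add]

lemma inner_δ (v w : Fin 7) : ⟪δ v, δ w⟫_ℂ = if v = w then 1 else 0 := by
  rw [δ, EuclideanSpace.inner_single_left, δ, PiLp.single_apply]
  simp

lemma q_e (v w : Fin 7) : q v (e w) = if v = w then 1 else 0 := by
  rw [q_apply, e_apply, inner_smul_right, inner_δ, δ, PiLp.single_apply]
  by_cases h : v = w
  · subst h; simp
  · simp [h]

lemma q_one (v : Fin 7) : q v 1 = 1 := by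
  change ⟪δ v, δ v⟫_ℂ = 1
  rw [inner_δ, if_pos rfl]

lemma sum_e : ∑ v, e v = 1 := by
  ext x i
  simp only [ContinuousLinearMap.sum_apply, e_apply]
  simp [δ, Finset.sum_apply, Pi.single_apply]

lemma T_one (c : Fin 3) : T c 1 = 1 := by
  rw [T_apply]
  simp only [q_one]
  rw [← sum_e]
  refine Finset.sum_congr rfl fun v _ => ?_
  norm_num

lemma q_T (c : Fin 3) (v : Fin 7) (a : H7 →L[ℂ] H7) :
    q v (T c a) = (1 / 2 : ℂ) * (q (g c true v) a + q (g c false v) a) := by
  rw [T_apply, map_sum]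
  simp only [map_smul, q_e, smul_eq_mul]
  simp

lemma T_comm (c d : Fin 3) : T c * T d = T d * T c := by
  apply LinearMap.ext
  intro a
  rw [Module.End.mul_apply, Module.End.mul_apply, T_apply c (T d a), T_apply d (T c a)]
  refine Finset.sum_congr rfl fun v _ => ?_
  congr 1
  simp only [q_T]
  fin_cases c <;> fin_cases d <;> fin_cases v <;> simp [g] <;> ring

lemma inner_T (c : Fin 3) (a : H7 →L[ℂ] H7) (x y : H7) :
    ⟪x, T c a y⟫_ℂ =
      ∑ v, (1 / 2 : ℂ) * (q (g c true v) a + q (g c false v) a) * (star (x v) * y v) := by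
  rw [T_apply, ContinuousLinearMap.sum_apply, inner_sum]
  refine Finset.sum_congr rfl fun v _ => ?_
  rw [ContinuousLinearMap.smul_apply, inner_smul_right, e_apply, inner_smul_right, δ,
    EuclideanSpace.inner_single_right]
  simp only [one_mul, Complex.star_def]
  ring

lemma isCP_T (c : Fin 3) : IsCP (T c) := by
  intro n a h
  have key : ∀ w v : Fin 7, ∑ i, ∑ j, q w (star (a i) * a j) * (star (h i v) * h j v) =
      ((‖∑ j, (h j v) • a j (δ w)‖ ^ 2 : ℝ) : ℂ) := by
    intro w v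
    rw [← RCLike.ofReal_eq_complex_ofReal, RCLike.ofReal_pow, ← inner_self_eq_norm_sq_to_K,
      sum_inner]
    refine Finset.sum_congr rfl fun i _ => ?_
    rw [inner_sum]
    refine Finset.sum_congr rfl fun j _ => ?_
    rw [inner_smul_left, inner_smul_right, q_apply, ContinuousLinearMap.mul_apply,
      ContinuousLinearMap.star_eq_adjoint, ContinuousLinearMap.adjoint_inner_right]
    simp only [Complex.star_def]
    ring
  have h1 : ∑ i, ∑ j, ⟪h i, T c (star (a i) * a j) (h j)⟫_ℂ =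
      ∑ v, (1 / 2 : ℂ) * (((‖∑ j, (h j v) • a j (δ (g c true v))‖ ^ 2 : ℝ) : ℂ) +
        ((‖∑ j, (h j v) • a j (δ (g c false v))‖ ^ 2 : ℝ) : ℂ)) := by
    simp only [inner_T]
    rw [Finset.sum_congr rfl fun i _ => Finset.sum_comm, Finset.sum_comm]
    refine Finset.sum_congr rfl fun v _ => ?_
    rw [← key, ← key, ← Finset.sum_add_distrib, Finset.mul_sum]
    refine Finset.sum_congr rfl fun i _ => ?_
    rw [← Finset.sum_add_distrib, Finset.mul_sum]
    refine Finset.sum_congr rfl fun j _ => ?_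
    ring
  rw [h1]
  refine Finset.sum_nonneg fun v _ => ?_
  have h2 : (0 : ℂ) ≤ 1 / 2 := by
    rw [Complex.le_def]; norm_num
  refine mul_nonneg h2 (add_nonneg ?_ ?_)
  · exact Complex.zero_le_real.2 (sq_nonneg _)
  · exact Complex.zero_le_real.2 (sq_nonneg _)

lemma isNormal_T (c : Fin 3) : IsNormal (T c) := by
  intro x
  refine ⟨Fin 7 × Bool, fun i => ((‖x i.1‖ * (Real.sqrt 2)⁻¹ : ℝ) : ℂ) • δ (g c i.2 i.1),
    (hasSum_fintype _).summable, fun a => ?_⟩
  have h1 : ⟪x, T c a x⟫_ℂ = ∑ i : Fin 7 × Bool,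
      ⟪((‖x i.1‖ * (Real.sqrt 2)⁻¹ : ℝ) : ℂ) • δ (g c i.2 i.1),
        a (((‖x i.1‖ * (Real.sqrt 2)⁻¹ : ℝ) : ℂ) • δ (g c i.2 i.1))⟫_ℂ := by
    rw [inner_T, Fintype.sum_prod_type]
    refine Finset.sum_congr rfl fun v _ => ?_
    rw [Fintype.sum_bool]
    have h2 : ((‖x v‖ * (Real.sqrt 2)⁻¹ : ℝ) : ℂ) * ((‖x v‖ * (Real.sqrt 2)⁻¹ : ℝ) : ℂ) =
        (1 / 2 : ℂ) * (star (x v) * x v) := by
      rw [← Complex.ofReal_mul]
      have h3 : ‖x v‖ * (Real.sqrt 2)⁻¹ * (‖x v‖ * (Real.sqrt 2)⁻¹) = ‖x v‖ ^ 2 / 2 := by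
        have : (Real.sqrt 2)⁻¹ * (Real.sqrt 2)⁻¹ = 1 / 2 := by
          rw [← mul_inv, Real.mul_self_sqrt (by norm_num)]; norm_num
        calc ‖x v‖ * (Real.sqrt 2)⁻¹ * (‖x v‖ * (Real.sqrt 2)⁻¹) =
            ‖x v‖ ^ 2 * ((Real.sqrt 2)⁻¹ * (Real.sqrt 2)⁻¹) := by ring
          _ = ‖x v‖ ^ 2 / 2 := by rw [this]; ring
      rw [h3, Complex.star_def, Complex.conj_mul']
      push_cast
      ring
    simp only [map_smul, inner_smul_left, inner_smul_right, Complex.conj_ofReal, q_apply]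
    calc (1 / 2 : ℂ) * (⟪δ (g c true v), a (δ (g c true v))⟫_ℂ +
          ⟪δ (g c false v), a (δ (g c false v))⟫_ℂ) * (star (x v) * x v) =
        ((1 / 2 : ℂ) * (star (x v) * x v)) * (⟪δ (g c true v), a (δ (g c true v))⟫_ℂ +
          ⟪δ (g c false v), a (δ (g c false v))⟫_ℂ) := by ring
      _ = _ := by rw [← h2]; ring
  rw [h1]
  exact hasSum_fintype _

/-! ### there is no dilation -/

section nodil

variable {K : Type*} [NormedAddCommGroup K] [InnerProductSpace ℂ K] [CompleteSpace K]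

lemma lift_apply {H : Type*} [NormedAddCommGroup H] [InnerProductSpace ℂ H] [CompleteSpace H]
    (V : H →ₗᵢ[ℂ] K) (a : H →L[ℂ] H) (x : K) :
    lift V a x = V (a (ContinuousLinearMap.adjoint V.toContinuousLinearMap x)) := rfl

lemma adjoint_V {H : Type*} [NormedAddCommGroup H] [InnerProductSpace ℂ H] [CompleteSpace H]
    (V : H →ₗᵢ[ℂ] K) (x : H) :
    ContinuousLinearMap.adjoint V.toContinuousLinearMap (V x) = x := by
  apply ext_inner_left ℂ
  intro y
  rw [ContinuousLinearMap.adjoint_inner_right]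
  exact V.inner_map_map y x

lemma lift_mul {H : Type*} [NormedAddCommGroup H] [InnerProductSpace ℂ H] [CompleteSpace H]
    (V : H →ₗᵢ[ℂ] K) (a b : H →L[ℂ] H) : lift V a * lift V b = lift V (a * b) := by
  ext x
  rw [ContinuousLinearMap.mul_apply, lift_apply, lift_apply, adjoint_V, lift_apply]
  rfl

lemma lift_star {H : Type*} [NormedAddCommGroup H] [InnerProductSpace ℂ H] [CompleteSpace H]
    (V : H →ₗᵢ[ℂ] K) (a : H →L[ℂ] H) : star (lift V a) = lift V (star a) := by
  rw [ContinuousLinearMap.star_eq_adjoint, lift, ContinuousLinearMap.adjoint_comp,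
    ContinuousLinearMap.adjoint_comp, ContinuousLinearMap.adjoint_adjoint]
  rfl

lemma lift_add {H : Type*} [NormedAddCommGroup H] [InnerProductSpace ℂ H] [CompleteSpace H]
    (V : H →ₗᵢ[ℂ] K) (a b : H →L[ℂ] H) : lift V (a + b) = lift V a + lift V b := by
  ext x
  rw [ContinuousLinearMap.add_apply, lift_apply, lift_apply, lift_apply,
    ContinuousLinearMap.add_apply, map_add]

lemma lift_smul {H : Type*} [NormedAddCommGroup H] [InnerProductSpace ℂ H] [CompleteSpace H]
    (V : H →ₗᵢ[ℂ] K) (c : ℂ) (a : H →L[ℂ] H) : lift V (c • a) = c • lift V a := by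
  ext x
  rw [ContinuousLinearMap.smul_apply, lift_apply, lift_apply, ContinuousLinearMap.smul_apply,
    map_smul]

lemma lift_sum {H : Type*} [NormedAddCommGroup H] [InnerProductSpace ℂ H] [CompleteSpace H]
    (V : H →ₗᵢ[ℂ] K) {ι : Type*} (s : Finset ι) (a : ι → (H →L[ℂ] H)) :
    lift V (∑ i ∈ s, a i) = ∑ i ∈ s, lift V (a i) := by
  ext x
  rw [ContinuousLinearMap.sum_apply, lift_apply, ContinuousLinearMap.sum_apply, map_sum]
  rfl

lemma lift_injective {H : Type*} [NormedAddCommGroup H] [InnerProductSpace ℂ H] [CompleteSpace H]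
    (V : H →ₗᵢ[ℂ] K) {a : H →L[ℂ] H} (h : lift V a = 0) : a = 0 := by
  ext x
  have h1 : lift V a (V x) = 0 := by rw [h]; rfl
  rw [lift_apply, adjoint_V] at h1
  rw [ContinuousLinearMap.zero_apply]
  exact V.injective (by rw [h1, map_zero])

lemma isLift_iff {H : Type*} [NormedAddCommGroup H] [InnerProductSpace ℂ H] [CompleteSpace H]
    (V : H →ₗᵢ[ℂ] K) (a : H →L[ℂ] H) (b : K →L[ℂ] K) : IsLift V a b ↔ b = lift V a := by
  constructor
  · rintro ⟨h1, h2⟩
    ext z
    set w := ContinuousLinearMap.adjoint V.toContinuousLinearMap z with hw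
    have h3 : b (z - V w) = 0 := by
      refine h2 _ fun x => ?_
      rw [inner_sub_right, V.inner_map_map]
      have : ⟪V x, z⟫_ℂ = ⟪x, w⟫_ℂ := by
        rw [hw, ContinuousLinearMap.adjoint_inner_right]; rfl
      rw [this, sub_self]
    rw [map_sub, h1, sub_eq_zero] at h3
    rw [h3, lift_apply]
  · rintro rfl
    refine ⟨fun x => by rw [lift_apply, adjoint_V], fun z hz => ?_⟩
    have h3 : ContinuousLinearMap.adjoint V.toContinuousLinearMap z = 0 := by
      apply ext_inner_left ℂ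
      intro y
      rw [ContinuousLinearMap.adjoint_inner_right, inner_zero_right]
      exact hz y
    rw [lift_apply, h3, map_zero, map_zero]

end nodil

lemma e_mul (v w : Fin 7) : e v * e w = if v = w then e v else 0 := by
  ext1 x
  rw [ContinuousLinearMap.mul_apply, e_apply, e_apply]
  by_cases h : v = w
  · subst h
    rw [if_pos rfl, e_apply]
    simp [δ]
  · rw [if_neg h]
    simp [δ, h]

lemma star_e (v : Fin 7) : star (e v) = e v := by
  rw [ContinuousLinearMap.star_eq_adjoint]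
  symm
  rw [ContinuousLinearMap.eq_adjoint_iff]
  intro x y
  rw [e_apply, e_apply, inner_smul_left, inner_smul_right, δ, EuclideanSpace.inner_single_left,
    EuclideanSpace.inner_single_right]
  simp [mul_comm]

/-- the transition probabilities -/
noncomputable def Q (c : Fin 3) (v w : Fin 7) : ℂ :=
  (1 / 2 : ℂ) * ((if g c true v = w then 1 else 0) + (if g c false v = w then 1 else 0))

lemma Q_zero {c : Fin 3} {v w : Fin 7} (h : g c true v ≠ w ∧ g c false v ≠ w) : Q c v w = 0 := by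
  rw [Q, if_neg h.1, if_neg h.2]; norm_num

lemma Q_one {c : Fin 3} {v w : Fin 7} (h : g c true v = w ∧ g c false v = w) : Q c v w = 1 := by
  rw [Q, if_pos h.1, if_pos h.2]; norm_num

lemma T_e (c : Fin 3) (w : Fin 7) : T c (e w) = ∑ v, Q c v w • e v := by
  rw [T_apply]
  simp only [q_e]
  rfl

lemma semi_single (c : Fin 3) : semi T (Pi.single c 1) = T c := by
  fin_cases c <;> simp [semi]

theorem no_dilation {K : Type*} [NormedAddCommGroup K] [InnerProductSpace ℂ K] [CompleteSpace K]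
    (V : H7 →ₗᵢ[ℂ] K) (p : K →L[ℂ] K) (𝓑 : VonNeumannAlgebra K)
    (θ : (Fin 3 → ℕ) → (𝓑.toStarSubalgebra →⋆ₙₐ[ℂ] 𝓑.toStarSubalgebra))
    (hp_eq : p = lift V 1) (hp_mem : p ∈ 𝓑)
    (hcor : ∀ b : K →L[ℂ] K, (∃ b' ∈ 𝓑, b = p * b' * p) ↔ ∃ a : H7 →L[ℂ] H7, b = lift V a)
    (hadd : ∀ s t b, θ (s + t) b = θ s (θ t b))
    (hd : ∀ (s : Fin 3 → ℕ) (a : H7 →L[ℂ] H7) (b : 𝓑.toStarSubalgebra),
      (b : K →L[ℂ] K) = lift V a → lift V (semi T s a) = p * (θ s b : K →L[ℂ] K) * p) :
    False := by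
  -- the elements `E v` of `𝓑`
  have hmem : ∀ a : H7 →L[ℂ] H7, lift V a ∈ 𝓑.toStarSubalgebra := by
    intro a
    obtain ⟨b', hb', hb⟩ := (hcor (lift V a)).2 ⟨a, rfl⟩
    have hp : p ∈ 𝓑.toStarSubalgebra := hp_mem
    have hb'' : b' ∈ 𝓑.toStarSubalgebra := hb'
    rw [hb]
    exact mul_mem (mul_mem hp hb'') hp
  let L : (H7 →L[ℂ] H7) → 𝓑.toStarSubalgebra := fun a => ⟨lift V a, hmem a⟩
  have hL : ∀ a, ((L a : 𝓑.toStarSubalgebra) : K →L[ℂ] K) = lift V a := fun a => rfl
  have Lmul : ∀ a b, L a * L b = L (a * b) := fun a b => Subtype.ext (lift_mul V a b)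
  have Lstar : ∀ a, star (L a) = L (star a) := fun a => Subtype.ext (lift_star V a)
  have Lsmul : ∀ (c : ℂ) a, L (c • a) = c • L a := fun c a => Subtype.ext (lift_smul V c a)
  have Lsum : ∀ (f : Fin 7 → (H7 →L[ℂ] H7)), L (∑ i, f i) = ∑ i, L (f i) := fun f => by
    apply Subtype.ext
    rw [hL, lift_sum]
    rw [AddSubmonoidClass.coe_finset_sum]
  set E : Fin 7 → 𝓑.toStarSubalgebra := fun v => L (e v) with hE
  have EE : ∀ v w, E v * E w = if v = w then E v else 0 := by
    intro v w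
    rw [hE]
    simp only [Lmul, e_mul]
    by_cases hvw : v = w
    · rw [if_pos hvw, if_pos hvw]
    · rw [if_neg hvw, if_neg hvw]
      apply Subtype.ext
      ext x
      change V (0 : H7) = 0
      exact map_zero V
  have starE : ∀ v, star (E v) = E v := fun v => by rw [hE]; simp only [Lstar, star_e]
  set P : 𝓑.toStarSubalgebra := L 1 with hP
  have PE : P = ∑ v, E v := by rw [hP, ← sum_e, Lsum]
  have PEv : ∀ v, P * E v = E v := fun v => by rw [hP, hE]; simp only [Lmul, one_mul]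
  have EvP : ∀ v, E v * P = E v := fun v => by rw [hP, hE]; simp only [Lmul, mul_one]
  -- the three endomorphisms
  set τ : Fin 3 → (𝓑.toStarSubalgebra →⋆ₙₐ[ℂ] 𝓑.toStarSubalgebra) :=
    fun c => θ (Pi.single c 1) with hτ
  have τcomm : ∀ c d b, τ c (τ d b) = τ d (τ c b) := by
    intro c d b
    rw [hτ]
    simp only []
    rw [← hadd, ← hadd, add_comm]
  have τdil : ∀ c a, P * τ c (L a) * P = L (T c a) := by
    intro c a
    apply Subtype.ext
    have h1 := hd (Pi.single c 1) a (L a) rfl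
    rw [semi_single] at h1
    rw [hL, h1]
    have h2 : (P : K →L[ℂ] K) = p := by rw [hP, hL, hp_eq]
    rw [← h2]
    rfl
  have EτE : ∀ c v w, E v * τ c (E w) * E v = Q c v w • E v := by
    intro c v w
    have h1 : E v * τ c (E w) * E v = E v * (P * τ c (E w) * P) * E v := by
      calc E v * τ c (E w) * E v = (E v * P) * τ c (E w) * (P * E v) := by rw [EvP, PEv]
        _ = _ := by simp only [mul_assoc]
    rw [h1, hE]
    simp only []
    rw [τdil, T_e, Lmul, Lmul, ← Lsmul]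
    congr 1
    rw [Finset.mul_sum, Finset.sum_mul, Finset.sum_eq_single v]
    · rw [mul_smul_comm, smul_mul_assoc, e_mul, if_pos rfl, e_mul, if_pos rfl]
    · intro u _ huv
      rw [mul_smul_comm, smul_mul_assoc, e_mul, if_neg (Ne.symm huv), zero_mul, smul_zero]
    · intro hv; exact absurd (Finset.mem_univ v) hv
  have cstar : ∀ x : 𝓑.toStarSubalgebra, star x * x = 0 → x = 0 := by
    intro x hx
    apply Subtype.ext
    have h1 : star (x : K →L[ℂ] K) * (x : K →L[ℂ] K) = 0 := by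
      have := congrArg (fun y : 𝓑.toStarSubalgebra => (y : K →L[ℂ] K)) hx
      simpa using this
    exact CStarRing.star_mul_self_eq_zero_iff _ |>.1 h1
  -- a projection `r` with `e r e = 0` or `e r e = e`
  have zero_of : ∀ (r f : 𝓑.toStarSubalgebra), star r = r → r * r = r → star f = f →
      f * r * f = 0 → r * f = 0 := by
    intro r f hr hrr hf h0
    apply cstar
    rw [star_mul, hr, hf]
    calc f * r * (r * f) = f * (r * r) * f := by simp only [mul_assoc]
      _ = 0 := by rw [hrr, h0]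
  have one_of : ∀ (r f : 𝓑.toStarSubalgebra), star r = r → r * r = r → star f = f → f * f = f →
      f * r * f = f → r * f = f := by
    intro r f hr hrr hf hff h0
    have h1 : f - r * f = 0 := by
      apply cstar
      rw [star_sub, star_mul, hr, hf, sub_mul, mul_sub, mul_sub]
      have h2 : f * r * (r * f) = f := by
        calc f * r * (r * f) = f * (r * r) * f := by simp only [mul_assoc]
          _ = f := by rw [hrr, h0]
      have h3 : f * (r * f) = f := by rw [← mul_assoc, h0]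
      rw [h2, h3, hff, h0]
      abel
    exact (sub_eq_zero.1 h1).symm
  have τproj : ∀ c w, star (τ c (E w)) = τ c (E w) ∧ τ c (E w) * τ c (E w) = τ c (E w) := by
    intro c w
    refine ⟨by rw [← map_star, starE], by rw [← map_mul, EE, if_pos rfl]⟩
  have τzero : ∀ c v w, Q c v w = 0 → τ c (E w) * E v = 0 := by
    intro c v w hQ
    refine zero_of _ _ (τproj c w).1 (τproj c w).2 (starE v) ?_
    rw [EτE, hQ, zero_smul]
  have τone : ∀ c v w, Q c v w = 1 → τ c (E w) * E v = E v := by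
    intro c v w hQ
    refine one_of _ _ (τproj c w).1 (τproj c w).2 (starE v) (by rw [EE, if_pos rfl]) ?_
    rw [EτE, hQ, one_smul]
  have τP : ∀ c v, τ c P * E v = E v := by
    intro c v
    have hPP : P * P = P := by rw [hP, Lmul, one_mul]
    have hPs : star P = P := by rw [hP, Lstar, star_one]
    refine one_of _ _ (by rw [← map_star, hPs]) (by rw [← map_mul, hPP]) (starE v)
      (by rw [EE, if_pos rfl]) ?_
    calc E v * τ c P * E v = (E v * P) * τ c P * (P * E v) := by rw [EvP, PEv]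
      _ = E v * (P * τ c P * P) * E v := by simp only [mul_assoc]
      _ = E v := by rw [hP, τdil, T_one, ← hP, EvP, EE, if_pos rfl]
  -- the basic step
  have step : ∀ (c d : Fin 3) (x : Fin 7),
      (∀ j, j ≠ x → (g c true 0 ≠ j ∧ g c false 0 ≠ j) ∨ (g d true j ≠ 5 ∧ g d false j ≠ 5)) →
      (g d true x = 5 ∧ g d false x = 5) → τ c (τ d (E 5)) * E 0 = τ c (E x) * E 0 := by
    intro c d x hj hx
    calc τ c (τ d (E 5)) * E 0 = τ c (τ d (E 5)) * (τ c P * E 0) := by rw [τP]
      _ = ∑ j, τ c (τ d (E 5) * E j) * E 0 := by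
        rw [PE, map_sum, Finset.sum_mul, Finset.mul_sum]
        refine Finset.sum_congr rfl fun j _ => ?_
        rw [map_mul, mul_assoc]
      _ = τ c (τ d (E 5) * E x) * E 0 := by
        refine Finset.sum_eq_single x (fun j _ hjx => ?_) (fun hx => absurd (Finset.mem_univ x) hx)
        rcases hj j hjx with h0 | h0
        · rw [map_mul, mul_assoc, τzero c 0 j (Q_zero h0), mul_zero]
        · rw [τzero d j 5 (Q_zero h0), map_zero, zero_mul]
      _ = τ c (E x) * E 0 := by rw [τone d x 5 (Q_one hx)]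
  have k1 : τ 0 (E 1) * E 0 = τ 1 (E 1) * E 0 := by
    rw [← step 0 1 1 (by decide) (by decide), ← step 1 0 1 (by decide) (by decide), τcomm]
  have k2 : τ 0 (E 1) * E 0 = τ 2 (E 3) * E 0 := by
    rw [← step 0 2 1 (by decide) (by decide), ← step 2 0 3 (by decide) (by decide), τcomm]
  have k3 : τ 1 (E 1) * E 0 = τ 2 (E 4) * E 0 := by
    rw [← step 1 2 1 (by decide) (by decide), ← step 2 1 4 (by decide) (by decide), τcomm]
  have k4 : τ 2 (E 3) * E 0 = τ 2 (E 4) * E 0 := by rw [← k2, k1, k3]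
  have k5 : τ 2 (E 3) * E 0 = 0 := by
    calc τ 2 (E 3) * E 0 = τ 2 (E 3) * (τ 2 (E 3) * E 0) := by
          rw [← mul_assoc, (τproj 2 3).2]
      _ = τ 2 (E 3) * (τ 2 (E 4) * E 0) := by rw [k4]
      _ = τ 2 (E 3 * E 4) * E 0 := by rw [← mul_assoc, map_mul]
      _ = 0 := by rw [EE, if_neg (by decide), map_zero, zero_mul]
  have k6 : (1 / 2 : ℂ) • E 0 = 0 := by
    have h1 := EτE 2 0 3
    rw [mul_assoc, k5, mul_zero] at h1
    rw [h1, Q, if_pos (by decide), if_neg (by decide), add_zero, mul_one]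
  have k7 : E 0 = 0 := by
    have : (2 : ℂ) • ((1 / 2 : ℂ) • E 0) = 0 := by rw [k6, smul_zero]
    rwa [smul_smul, mul_one_div_cancel two_ne_zero, one_smul] at this
  have k8 : lift V (e 0) = 0 := by
    have := congrArg (fun y : 𝓑.toStarSubalgebra => (y : K →L[ℂ] K)) k7
    simpa [hE, hL] using this
  have k9 : e 0 = 0 := lift_injective V k8
  have k10 := q_e 0 0
  rw [k9, map_zero, if_pos rfl] at k10
  exact zero_ne_one k10

/-- **Answer to Q1: yes.** There are a von Neumann algebra `B(H)` (`dim H = 7`) and three commuting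
unital normal completely positive maps on it such that the associated semigroup over `ℕ³` has no
dilation. -/
theorem result.{v} :
    ∃ (H : Type) (_ : NormedAddCommGroup H) (_ : InnerProductSpace ℂ H) (_ : CompleteSpace H)
      (T : Fin 3 → OpMap H), IsMarkovTriple T ∧ ¬ HasDilation.{0, v} T := by
  refine ⟨H7, inferInstance, inferInstance, inferInstance, T,
    ⟨isCP_T, isNormal_T, T_one, T_comm⟩, ?_⟩
  rintro ⟨K, _, _, _, V, p, 𝓑, θ, hc, hs, hd⟩
  have hm : ∀ x : 𝓑.toStarSubalgebra, (x : K →L[ℂ] K) ∈ 𝓑 := fun x => x.2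
  have hlift : ∀ a, lift V a ∈ 𝓑 := by
    intro a
    obtain ⟨b', hb', hb⟩ := (hc.corner (lift V a)).2 ⟨a, (isLift_iff V a _).2 rfl⟩
    rw [hb]
    exact mul_mem (mul_mem hc.p_mem hb') hc.p_mem
  let θ' : (Fin 3 → ℕ) → (𝓑.toStarSubalgebra →⋆ₙₐ[ℂ] 𝓑.toStarSubalgebra) := fun s =>
    { toFun := fun x => ⟨θ s x, (hs.starEnd s).mapsInto _ (hm x)⟩
      map_smul' := fun c x => Subtype.ext ((hs.starEnd s).hom c _ (hm x))
      map_zero' := by
        apply Subtype.ext
        have h := (hs.starEnd s).hom 0 0 (zero_mem 𝓑)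
        rw [zero_smul, zero_smul] at h
        exact h
      map_add' := fun x y => Subtype.ext ((hs.starEnd s).add _ (hm x) _ (hm y))
      map_mul' := fun x y => Subtype.ext ((hs.starEnd s).mul _ (hm x) _ (hm y))
      map_star' := fun x => Subtype.ext ((hs.starEnd s).star _ (hm x)) }
  refine no_dilation V p 𝓑 θ' ((isLift_iff V 1 p).1 hc.p_eq) hc.p_mem ?_ ?_ ?_
  · intro b
    rw [hc.corner b]
    exact exists_congr fun a => isLift_iff V a b
  · intro s t b
    exact Subtype.ext (hs.add s t _ (hm b))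
  · intro s a b hb
    exact ((isLift_iff V _ _).1 (hd s a b ((isLift_iff V a b).2 hb))).symm

end Pool.Agent.Results.MP_0a86e9_an.NoDilation
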